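import Pool.Agent.Work.MP_0d206b_gt.Asm.All
import Pool.Agent.Work.MP_0d206b_gt.Asm.Bridge

/-!
# MP_0d206b_gt, Q1: the stable leaf space of an Anosov flow does not determine its unstable leaf space

All definitions of the statement are in `Pool/Agent/Work/MP_0d206b_gt/Statement.lean`.
-/

set_option autoImplicit false

open Pool.Agent.Work.MP_0d206b_gt.St

noncomputable section

namespace Pool.Agent.Results.MP_0d206b_gt.StableVersusUnstable

/-- There are two Anosov flows on closed 3-manifolds whose weak stable foliations have homeomorphic leaf spaces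
in the universal cover, while the leaf spaces of the weak unstable foliations are not homeomorphic (for every
choice of the universal covers, which exist). -/
theorem result :
    ∃ (M₁ M₂ : Closed3) (φ₁ : Anosov M₁.carrier) (φ₂ : Anosov M₂.carrier),
    Nonempty (UnivCover M₁.carrier) ∧ Nonempty (UnivCover M₂.carrier) ∧
    ∀ (N₁ : UnivCover M₁.carrier) (N₂ : UnivCover M₂.carrier),
      Nonempty (LeafSpace N₁ (weakStable φ₁) ≃ₜ LeafSpace N₂ (weakStable φ₂)) ∧
      IsEmpty (LeafSpace N₁ (weakUnstable φ₁) ≃ₜ LeafSpace N₂ (weakUnstable φ₂)) :=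
  Pool.Agent.Work.MP_0d206b_gt.Bridge.bridge Pool.Agent.Work.MP_0d206b_gt.mainStatement

end Pool.Agent.Results.MP_0d206b_gt.StableVersusUnstable
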